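import Pool.Agent.Work.LipGraph.Op.Final
import Pool.Agent.Work.LipGraph.Union.TSA

/-!
# Bimeasures, part E: the bilinear form of a pair of self-adjoint operators
-/

open Matrix MeasureTheory Filter
open scoped ComplexOrder InnerProductSpace BoundedContinuousFunction

namespace Pool.LG

open Pool.PN Pool.FR Pool.FR.FAux ODAux OFAux OGAux TSAux

universe v

namespace BM

variable {H : Type v} [NormedAddCommGroup H] [InnerProductSpace ℂ H] [CompleteSpace H]

/-- `Tk` as a linear map in `S` -/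
noncomputable def TkL (τ : (H →L[ℂ] H) →ₗ[ℂ] ℂ) (X X' : H →L[ℂ] H) (k : ℕ) :
    (H →L[ℂ] H) →ₗ[ℂ] ℂ where
  toFun S := Tk τ X X' S k
  map_add' S S' := by
    unfold Tk
    rw [← Finset.sum_add_distrib]
    exact Finset.sum_congr rfl fun j _ => by rw [mul_add, add_mul, map_add]
  map_smul' c S := by
    unfold Tk
    rw [RingHom.id_apply, smul_eq_mul, Finset.mul_sum]
    exact Finset.sum_congr rfl fun j _ => by
      rw [mul_smul_comm, smul_mul_assoc, map_smul, smul_eq_mul]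

theorem TkL_apply (τ : (H →L[ℂ] H) →ₗ[ℂ] ℂ) (X X' S : H →L[ℂ] H) (k : ℕ) :
    TkL τ X X' k S = Tk τ X X' S k := rfl

/-- the functional `q ↦ tr S (P(X') - P(X))`, `P' = q` -/
noncomputable def AL (τ : (H →L[ℂ] H) →ₗ[ℂ] ℂ) (X X' : H →L[ℂ] H) :
    Polynomial ℝ →ₗ[ℝ] ((H →L[ℂ] H) →ₗ[ℂ] ℂ) :=
  Polynomial.lsum fun k => (LinearMap.toSpanSingleton ℝ _ ((1 / (k + 1 : ℝ)) • TkL τ X X' (k + 1)))

theorem AL_monomial (τ : (H →L[ℂ] H) →ₗ[ℂ] ℂ) (X X' S : H →L[ℂ] H) (k : ℕ) (c : ℝ) :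
    AL τ X X' (Polynomial.monomial k c) S = (c / (k + 1) : ℝ) * Tk τ X X' S (k + 1) := by
  unfold AL
  rw [Polynomial.lsum_apply, Polynomial.sum_monomial_index _ _ (by simp)]
  simp only [LinearMap.toSpanSingleton_apply, LinearMap.smul_apply, TkL_apply]
  rw [smul_smul, Complex.real_smul]
  congr 2
  ring

/-- antiderivative -/
noncomputable def anti (q : Polynomial ℝ) : Polynomial ℝ :=
  q.sum fun k c => Polynomial.monomial (k + 1) (c / (k + 1))

theorem derivative_anti (q : Polynomial ℝ) : (anti q).derivative = q := by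
  unfold anti
  rw [Polynomial.sum_def, Polynomial.derivative_sum]
  conv_rhs => rw [← Polynomial.sum_monomial_eq q, Polynomial.sum_def]
  refine Finset.sum_congr rfl fun k _ => ?_
  rw [Polynomial.derivative_monomial]
  simp only [Nat.add_sub_cancel]
  congr 1
  have : ((k : ℝ) + 1) ≠ 0 := by positivity
  push_cast
  field_simp

theorem TP_add (τ : (H →L[ℂ] H) →ₗ[ℂ] ℂ) (X X' S : H →L[ℂ] H) (p q : Polynomial ℝ) :
    TP τ X X' S (p + q) = TP τ X X' S p + TP τ X X' S q := by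
  unfold TP
  refine Polynomial.sum_add_index _ _ _ (fun k => by simp) fun k a b => ?_
  push_cast
  ring

theorem AL_eq (τ : (H →L[ℂ] H) →ₗ[ℂ] ℂ) (X X' S : H →L[ℂ] H) (q : Polynomial ℝ) :
    AL τ X X' q S = TP τ X X' S (anti q) := by
  have hadd : ∀ p q : Polynomial ℝ, anti (p + q) = anti p + anti q := by
    intro p q
    unfold anti
    refine Polynomial.sum_add_index _ _ _ (fun k => by simp) fun k a b => ?_
    rw [add_div, map_add]
  induction q using Polynomial.induction_on' with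
  | add p q hp hq =>
    rw [map_add, LinearMap.add_apply, hp, hq, hadd, TP_add]
  | monomial k c =>
    rw [AL_monomial]
    unfold anti
    rw [Polynomial.sum_monomial_index _ _ (by simp)]
    unfold TP
    rw [Polynomial.sum_monomial_index _ _ (by simp)]

variable {ι : Type} (bas : HilbertBasis ι ℂ H)

include bas in
/-- the diagonal inequality for the functional, `S` self-adjoint -/
theorem AL_bound {C : ℝ} (hC : ∀ (H : Type v) [NormedAddCommGroup H] [InnerProductSpace ℂ H]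
    [CompleteSpace H]
    (X X' S : H →L[ℂ] H), IsSelfAdjoint X → IsSelfAdjoint S → X * S = S * X →
    ∀ (M : ℝ), Ser (X' - X) M → ∀ (p : Polynomial ℝ) (R L : ℝ), ‖X‖ + M ≤ R → 0 ≤ L →
      (∀ t, |t| ≤ R → |p.derivative.eval t| ≤ L) →
      ∃ (N : ℝ) (τ : (H →L[ℂ] H) →ₗ[ℂ] ℂ), Nuc (ev X' p - ev X p) N τ ∧
        ‖τ S‖ ≤ C * L * ‖S‖ * M) {X X' S : H →L[ℂ] H} (hX : IsSelfAdjoint X)
    (hS : IsSelfAdjoint S) (hc : X * S = S * X) {M N : ℝ} (hM : Ser (X' - X) M)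
    {τ : (H →L[ℂ] H) →ₗ[ℂ] ℂ} (hτ : Nuc (X' - X) N τ) {R L : ℝ} (hR : ‖X‖ + M ≤ R) (hL : 0 ≤ L)
    {q : Polynomial ℝ} (hq : ∀ t, |t| ≤ R → |q.eval t| ≤ L) :
    ‖AL τ X X' q S‖ ≤ C * L * ‖S‖ * M := by
  obtain ⟨N', τ', h1, h2⟩ := hC H X X' S hX hS hc M hM (anti q) R L hR hL
    (by rw [derivative_anti]; exact hq)
  obtain ⟨N'', τ'', h3, h4⟩ := pol_ex hτ (anti q)
  rw [AL_eq, ← h4, uniq bas h3 h1]
  exact h2

include bas in
/-- the diagonal inequality for the functional, normal `S` -/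
theorem AL_bound' {C : ℝ} (hC0 : 0 ≤ C) (hC : ∀ (H : Type v) [NormedAddCommGroup H]
    [InnerProductSpace ℂ H] [CompleteSpace H]
    (X X' S : H →L[ℂ] H), IsSelfAdjoint X → IsSelfAdjoint S → X * S = S * X →
    ∀ (M : ℝ), Ser (X' - X) M → ∀ (p : Polynomial ℝ) (R L : ℝ), ‖X‖ + M ≤ R → 0 ≤ L →
      (∀ t, |t| ≤ R → |p.derivative.eval t| ≤ L) →
      ∃ (N : ℝ) (τ : (H →L[ℂ] H) →ₗ[ℂ] ℂ), Nuc (ev X' p - ev X p) N τ ∧
        ‖τ S‖ ≤ C * L * ‖S‖ * M) {X X' S : H →L[ℂ] H} (hX : IsSelfAdjoint X)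
    (hc : X * S = S * X) (hc' : X * star S = star S * X) {M N : ℝ} (hM0 : 0 ≤ M)
    (hM : Ser (X' - X) M)
    {τ : (H →L[ℂ] H) →ₗ[ℂ] ℂ} (hτ : Nuc (X' - X) N τ) {R L : ℝ} (hR : ‖X‖ + M ≤ R) (hL : 0 ≤ L)
    {q : Polynomial ℝ} (hq : ∀ t, |t| ≤ R → |q.eval t| ≤ L) :
    ‖AL τ X X' q S‖ ≤ 2 * C * M * L * ‖S‖ := by
  have h1 : X * rp S = rp S * X := by
    rw [rp_eq, mul_smul_comm, smul_mul_assoc, mul_add, add_mul, hc, hc']
  have h2 : X * ip S = ip S * X := by
    rw [ip_eq, mul_smul_comm, smul_mul_assoc, mul_add, add_mul, star_smul, mul_smul_comm,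
      smul_mul_assoc, mul_smul_comm, smul_mul_assoc, hc, hc']
  have h3 := AL_bound bas hC hX (rp_sa S) h1 hM hτ hR hL hq
  have h4 := AL_bound bas hC hX (ip_sa S) h2 hM hτ hR hL hq
  have h5 := NN_rp S
  unfold NN at h5
  have h6 : AL τ X X' q S = AL τ X X' q (rp S) + Complex.I * AL τ X X' q (ip S) := by
    conv_lhs => rw [← h5]
    rw [map_add, map_smul, smul_eq_mul]
  rw [h6]
  refine (norm_add_le _ _).trans ?_
  rw [norm_mul, Complex.norm_I, one_mul]
  have n1 := norm_rp S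
  have n2 := norm_ip S
  have h7 : C * L * ‖rp S‖ * M ≤ C * L * ‖S‖ * M := by gcongr
  have h8 : C * L * ‖ip S‖ * M ≤ C * L * ‖S‖ * M := by gcongr
  calc _ ≤ C * L * ‖S‖ * M + C * L * ‖S‖ * M := add_le_add (h3.trans h7) (h4.trans h8)
    _ = _ := by ring

/-- restriction of a real polynomial to `[-R, R]` -/
noncomputable def eR (R : ℝ) : Polynomial ℝ →ₗ[ℝ] C(Set.Icc (-R) R, ℝ) :=
  (Polynomial.toContinuousMapOnAlgHom (Set.Icc (-R) R)).toLinearMap

theorem eR_apply (R : ℝ) (q : Polynomial ℝ) (x : Set.Icc (-R) R) : eR R q x = q.eval (x : ℝ) := rfl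

theorem eR_dense (R : ℝ) : DenseRange (eR R) := by
  have h := polynomialFunctions_closure_eq_top (-R) R
  intro f
  have h1 : f ∈ (polynomialFunctions (Set.Icc (-R) R)).topologicalClosure := by
    rw [h]; trivial
  have h2 : Set.range (eR R) = (polynomialFunctions (Set.Icc (-R) R) : Set _) := by
    rw [polynomialFunctions_coe]
    rfl
  rw [h2]
  exact h1

/-- real part on `[-R, R]` -/
noncomputable def reC (R : ℝ) : (ℝ →ᵇ ℂ) →L[ℝ] C(Set.Icc (-R) R, ℝ) :=
  LinearMap.mkContinuous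
    { toFun := fun g => ⟨fun x => (g x).re, by fun_prop⟩
      map_add' := fun g h => by ext x; simp
      map_smul' := fun c g => by ext x; simp } 1 (by
    intro g
    rw [one_mul, ContinuousMap.norm_le _ (norm_nonneg _)]
    intro x
    exact (Complex.abs_re_le_norm _).trans (g.norm_coe_le_norm _))

/-- imaginary part on `[-R, R]` -/
noncomputable def imC (R : ℝ) : (ℝ →ᵇ ℂ) →L[ℝ] C(Set.Icc (-R) R, ℝ) :=
  LinearMap.mkContinuous
    { toFun := fun g => ⟨fun x => (g x).im, by fun_prop⟩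
      map_add' := fun g h => by ext x; simp
      map_smul' := fun c g => by ext x; simp } 1 (by
    intro g
    rw [one_mul, ContinuousMap.norm_le _ (norm_nonneg _)]
    intro x
    exact (Complex.abs_im_le_norm _).trans (g.norm_coe_le_norm _))

theorem reC_apply (R : ℝ) (g : ℝ →ᵇ ℂ) (x : Set.Icc (-R) R) : reC R g x = (g x).re := rfl
theorem imC_apply (R : ℝ) (g : ℝ →ᵇ ℂ) (x : Set.Icc (-R) R) : imC R g x = (g x).im := rfl

theorem reC_smul (R : ℝ) (c : ℂ) (g : ℝ →ᵇ ℂ) :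
    reC R (c • g) = c.re • reC R g - c.im • imC R g := by
  ext x
  simp [reC_apply, imC_apply]

theorem imC_smul (R : ℝ) (c : ℂ) (g : ℝ →ᵇ ℂ) :
    imC R (c • g) = c.re • imC R g + c.im • reC R g := by
  ext x
  simp [reC_apply, imC_apply]

theorem reC_norm (R : ℝ) (g : ℝ →ᵇ ℂ) : ‖reC R g‖ ≤ ‖g‖ := by
  rw [ContinuousMap.norm_le _ (norm_nonneg _)]
  intro x
  exact (Complex.abs_re_le_norm _).trans (g.norm_coe_le_norm _)

theorem imC_norm (R : ℝ) (g : ℝ →ᵇ ℂ) : ‖imC R g‖ ≤ ‖g‖ := by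
  rw [ContinuousMap.norm_le _ (norm_nonneg _)]
  intro x
  exact (Complex.abs_im_le_norm _).trans (g.norm_coe_le_norm _)

/-- the complexification of a real functional -/
theorem complexify {V : Type*} [NormedAddCommGroup V] [NormedSpace ℂ V] (R : ℝ)
    (β : C(Set.Icc (-R) R, ℝ) →L[ℝ] V) {K : ℝ} (hK : 0 ≤ K) (hβ : ∀ f, ‖β f‖ ≤ K * ‖f‖) :
    ∃ b : (ℝ →ᵇ ℂ) →L[ℂ] V, ‖b‖ ≤ 2 * K ∧ ∀ g, b g = β (reC R g) + Complex.I • β (imC R g) := by
  refine ⟨LinearMap.mkContinuous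
    { toFun := fun g => β (reC R g) + Complex.I • β (imC R g)
      map_add' := fun g h => by
        simp only [map_add, smul_add]
        abel
      map_smul' := fun c g => by
        simp only [reC_smul, imC_smul, map_add, map_sub, map_smul, RingHom.id_apply]
        have e : ∀ (r : ℝ) (v : V), r • v = (r : ℂ) • v := fun r v => by
          rw [Complex.coe_smul]
        simp only [e]
        have h1 : Complex.I * Complex.I = -1 := Complex.I_mul_I
        have h2 : c = (c.re : ℂ) + (c.im : ℂ) * Complex.I := (Complex.re_add_im c).symm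
        have e2 : c * Complex.I = (c.re : ℂ) * Complex.I - (c.im : ℂ) := by
          conv_lhs => rw [h2]
          linear_combination (c.im : ℂ) * h1
        have e5 : c • β (reC R g) = (c.re : ℂ) • β (reC R g) +
            ((c.im : ℂ) * Complex.I) • β (reC R g) := by rw [← add_smul, ← h2]
        rw [smul_add c, smul_smul c, e2, e5]
        simp only [smul_add, sub_smul, smul_smul]
        have e3 : Complex.I * (c.re : ℂ) = (c.re : ℂ) * Complex.I := mul_comm _ _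
        have e4 : Complex.I * (c.im : ℂ) = (c.im : ℂ) * Complex.I := mul_comm _ _
        rw [e3, e4]
        abel } (2 * K) ?_, ?_, fun g => rfl⟩
  · intro g
    refine (norm_add_le _ _).trans ?_
    rw [norm_smul, Complex.norm_I, one_mul]
    have h1 := hβ (reC R g)
    have h2 := hβ (imC R g)
    have h3 : K * ‖reC R g‖ ≤ K * ‖g‖ := by gcongr; exact reC_norm R g
    have h4 : K * ‖imC R g‖ ≤ K * ‖g‖ := by gcongr; exact imC_norm R g
    linarith
  · exact LinearMap.mkContinuous_norm_le _ (by positivity) _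

include bas in
/-- the bilinear form of the pair `X, X'` and a representation of `W` in the commutant of `X` -/
theorem bilin {C : ℝ} (hC0 : 0 ≤ C) (hC : ∀ (H : Type v) [NormedAddCommGroup H]
    [InnerProductSpace ℂ H] [CompleteSpace H]
    (X X' S : H →L[ℂ] H), IsSelfAdjoint X → IsSelfAdjoint S → X * S = S * X →
    ∀ (M : ℝ), Ser (X' - X) M → ∀ (p : Polynomial ℝ) (R L : ℝ), ‖X‖ + M ≤ R → 0 ≤ L →
      (∀ t, |t| ≤ R → |p.derivative.eval t| ≤ L) →
      ∃ (N : ℝ) (τ : (H →L[ℂ] H) →ₗ[ℂ] ℂ), Nuc (ev X' p - ev X p) N τ ∧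
        ‖τ S‖ ≤ C * L * ‖S‖ * M) {X X' : H →L[ℂ] H} (hX : IsSelfAdjoint X)
    {W : Type*} [NormedAddCommGroup W] [NormedSpace ℂ W] (ψ : W →ₗ[ℂ] (H →L[ℂ] H))
    (hψ : ∀ w, ‖ψ w‖ ≤ ‖w‖) (hc : ∀ w, X * ψ w = ψ w * X) (hc' : ∀ w, X * star (ψ w) =
      star (ψ w) * X) {M N : ℝ} (hM0 : 0 ≤ M) (hM : Ser (X' - X) M)
    {τ : (H →L[ℂ] H) →ₗ[ℂ] ℂ} (hτ : Nuc (X' - X) N τ) {R : ℝ} (hR : ‖X‖ + M ≤ R) :
    ∃ b : (ℝ →ᵇ ℂ) →L[ℂ] W →L[ℂ] ℂ, ‖b‖ ≤ 4 * C * M ∧
      (∀ g g' : ℝ →ᵇ ℂ, (∀ x ∈ Set.Icc (-R) R, g x = g' x) → b g = b g') ∧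
      (∀ w, ψ w = 0 → ∀ g, b g w = 0) ∧
      ∀ (k : ℕ) (g : ℝ →ᵇ ℂ), (∀ x ∈ Set.Icc (-R) R, g x = (x : ℂ) ^ k) → ∀ w,
        ((k : ℂ) + 1) * b g w = Tk τ X X' (ψ w) (k + 1) := by
  have hR0 : 0 ≤ R := le_trans (by positivity) hR
  have hbd : ∀ (q : Polynomial ℝ) (w : W), ‖AL τ X X' q (ψ w)‖ ≤ 2 * C * M * ‖eR R q‖ * ‖w‖ := by
    intro q w
    have h1 : ∀ t, |t| ≤ R → |q.eval t| ≤ ‖eR R q‖ := by
      intro t ht
      rw [abs_le] at ht
      exact (eR R q).norm_coe_le_norm ⟨t, ht⟩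
    have h2 := AL_bound' bas hC0 hC hX (hc w) (hc' w) hM0 hM hτ hR (norm_nonneg _) h1
    refine h2.trans ?_
    gcongr
    exact hψ w
  set F : Polynomial ℝ →ₗ[ℝ] (W →L[ℂ] ℂ) :=
    { toFun := fun q => LinearMap.mkContinuous (AL τ X X' q ∘ₗ ψ) (2 * C * M * ‖eR R q‖)
        (fun w => hbd q w)
      map_add' := fun p q => by
        ext w
        simp
      map_smul' := fun c q => by
        ext w
        simp } with hF
  have hFn : ∀ q, ‖F q‖ ≤ 2 * C * M * ‖eR R q‖ := fun q =>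
    LinearMap.mkContinuous_norm_le (AL τ X X' q ∘ₗ ψ) (by positivity) (fun w => hbd q w)
  set β : C(Set.Icc (-R) R, ℝ) →L[ℝ] (W →L[ℂ] ℂ) := F.extendOfNorm (eR R) with hβ
  have hβn : ∀ f, ‖β f‖ ≤ 2 * C * M * ‖f‖ := fun f =>
    LinearMap.norm_extendOfNorm_apply_le (eR_dense R) _ hFn f
  have hβe : ∀ q, β (eR R q) = F q := fun q =>
    LinearMap.extendOfNorm_eq (eR_dense R) ⟨_, hFn⟩ q
  obtain ⟨b, hb1, hb2⟩ := complexify R β (by positivity) hβn
  refine ⟨b, hb1.trans (le_of_eq (by ring)), fun g g' h => ?_, fun w hw g => ?_,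
    fun k g h w => ?_⟩
  · rw [hb2, hb2]
    have e1 : reC R g = reC R g' := by ext x; simp only [reC_apply]; rw [h x x.2]
    have e2 : imC R g = imC R g' := by ext x; simp only [imC_apply]; rw [h x x.2]
    rw [e1, e2]
  · have h1 : ∀ f, β f w = 0 := by
      intro f
      refine (eR_dense R).induction_on (p := fun f => β f w = 0) f ?_ fun q => ?_
      · exact isClosed_eq (by fun_prop) continuous_const
      · rw [hβe]
        have h3 : F q w = AL τ X X' q (ψ w) := rfl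
        rw [h3, hw, map_zero]
    rw [hb2, _root_.add_apply, _root_.smul_apply, h1, h1, smul_zero, add_zero]
  · have e1 : reC R g = eR R (Polynomial.monomial k 1) := by
      ext x
      rw [reC_apply, h x x.2, eR_apply, Polynomial.eval_monomial, one_mul, ← Complex.ofReal_pow,
        Complex.ofReal_re]
    have e2 : imC R g = 0 := by
      ext x
      rw [imC_apply, h x x.2, ← Complex.ofReal_pow, Complex.ofReal_im]
      rfl
    rw [hb2, e1, e2, map_zero, smul_zero, add_zero, hβe]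
    have h3 : F (Polynomial.monomial k 1) w = AL τ X X' (Polynomial.monomial k 1) (ψ w) := rfl
    rw [h3, AL_monomial]
    have : ((k : ℂ) + 1) ≠ 0 := by
      have : ((k : ℝ) + 1) ≠ 0 := by positivity
      exact_mod_cast this
    push_cast
    field_simp

end BM

end Pool.LG
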