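import Pool.Agent.Work.FiniteRankNormal.FE

/-!
# Bimeasures, part X: a bounded bilinear form as a functional on the projective tensor product
-/

open MeasureTheory Filter
open scoped BoundedContinuousFunction Topology unitInterval

namespace Pool.LG.BM

open Pool.FR.FAux

/-- `[0,1] → [-R,R]` -/
noncomputable def pt (R : ℝ) (s : I) : ℝ := R * (2 * s - 1)

theorem continuous_pt (R : ℝ) : Continuous (pt R) := by unfold pt; fun_prop

/-- `ℝ → [0,1]` -/
noncomputable def tt (R : ℝ) (x : ℝ) : I := Set.projIcc 0 1 zero_le_one ((x + R) / (2 * R))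

theorem continuous_tt (R : ℝ) : Continuous (tt R) := by
  unfold tt
  exact continuous_projIcc.comp (by fun_prop)

theorem pt_tt {R : ℝ} (hR : 0 < R) {x : ℝ} (hx : x ∈ Set.Icc (-R) R) : pt R (tt R x) = x := by
  have h1 : (x + R) / (2 * R) ∈ Set.Icc (0 : ℝ) 1 := by
    constructor
    · exact div_nonneg (by linarith [hx.1]) (by linarith)
    · rw [div_le_one (by linarith)]; linarith [hx.2]
  unfold pt tt
  rw [Set.projIcc_of_mem _ h1]
  simp only
  field_simp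
  ring

/-- restriction to `[-R,R]` -/
noncomputable def toU (R : ℝ) (g : ℝ →ᵇ ℂ) : C(I, ℂ) := ⟨fun s => g (pt R s), by
  exact g.continuous.comp (continuous_pt R)⟩

/-- extension by constants -/
noncomputable def ofU (R : ℝ) : C(I, ℂ) →L[ℂ] (ℝ →ᵇ ℂ) :=
  LinearMap.mkContinuous
    { toFun := fun F => BoundedContinuousFunction.ofNormedAddCommGroup (fun x => F (tt R x))
        (F.continuous.comp (continuous_tt R)) ‖F‖ (fun x => F.norm_coe_le_norm _)
      map_add' := fun F G => by ext x; rfl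
      map_smul' := fun c F => by ext x; rfl } 1 (by
    intro F
    rw [one_mul, BoundedContinuousFunction.norm_le (norm_nonneg _)]
    exact fun x => F.norm_coe_le_norm _)

theorem ofU_apply (R : ℝ) (F : C(I, ℂ)) (x : ℝ) : ofU R F x = F (tt R x) := rfl

theorem norm_ofU_le (R : ℝ) (F : C(I, ℂ)) : ‖ofU R F‖ ≤ ‖F‖ := by
  rw [BoundedContinuousFunction.norm_le (norm_nonneg _)]
  exact fun x => F.norm_coe_le_norm _

theorem norm_toU_le (R : ℝ) (g : ℝ →ᵇ ℂ) : ‖toU R g‖ ≤ ‖g‖ := by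
  rw [ContinuousMap.norm_le _ (norm_nonneg _)]
  exact fun x => g.norm_coe_le_norm _

theorem ofU_toU {R : ℝ} (hR : 0 < R) (g : ℝ →ᵇ ℂ) {x : ℝ} (hx : x ∈ Set.Icc (-R) R) :
    ofU R (toU R g) x = g x := by
  rw [ofU_apply]
  change g (pt R (tt R x)) = g x
  rw [pt_tt hR hx]

theorem norm_bern_le (n : ℕ) (F : C(I, ℂ)) : ‖bernsteinApproximation n F‖ ≤ ‖F‖ := by
  rw [ContinuousMap.norm_le _ (norm_nonneg _)]
  intro x
  rw [bernsteinApproximation.apply]
  calc ‖∑ k : Fin (n + 1), bernstein n k x • F (bernstein.z k)‖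
      ≤ ∑ k : Fin (n + 1), bernstein n k x * ‖F‖ := by
        refine norm_sum_le_of_le _ fun k _ => ?_
        rw [norm_smul, Real.norm_eq_abs, abs_of_nonneg bernstein_nonneg]
        exact mul_le_mul_of_nonneg_left (F.norm_coe_le_norm _) bernstein_nonneg
    _ = ‖F‖ := by rw [← Finset.sum_mul, bernstein.probability, one_mul]

/-- the Bernstein operator -/
noncomputable def PB (R : ℝ) (n : ℕ) (g : ℝ →ᵇ ℂ) : ℝ →ᵇ ℂ :=
  ofU R (bernsteinApproximation n (toU R g))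

theorem norm_PB_le (R : ℝ) (n : ℕ) (g : ℝ →ᵇ ℂ) : ‖PB R n g‖ ≤ ‖g‖ :=
  (norm_ofU_le _ _).trans ((norm_bern_le _ _).trans (norm_toU_le _ _))

theorem tendsto_PB (R : ℝ) (g : ℝ →ᵇ ℂ) :
    Tendsto (fun n => PB R n g) atTop (𝓝 (ofU R (toU R g))) :=
  ((ofU R).continuous.tendsto _).comp (bernsteinApproximation_uniform (toU R g))

/-- the Bernstein polynomials as complex functions -/
noncomputable def bb (R : ℝ) (n : ℕ) (k : Fin (n + 1)) : ℝ →ᵇ ℂ :=
  ofU R ⟨fun s => (bernstein n k s : ℂ), by fun_prop⟩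

/-- the nodes -/
noncomputable def xx (R : ℝ) (n : ℕ) (k : Fin (n + 1)) : ℝ := pt R (bernstein.z k)

theorem PB_eq (R : ℝ) (n : ℕ) (g : ℝ →ᵇ ℂ) : PB R n g = ∑ k, g (xx R n k) • bb R n k := by
  ext x
  unfold PB bb
  rw [ofU_apply, bernsteinApproximation.apply, BoundedContinuousFunction.coe_sum,
    Finset.sum_apply]
  refine Finset.sum_congr rfl fun k _ => ?_
  change ((bernstein n k (tt R x) : ℝ) • g (pt R (bernstein.z k)) : ℂ) =
    g (xx R n k) • ((bernstein n k (tt R x) : ℝ) : ℂ)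
  rw [smul_eq_mul, Complex.real_smul, mul_comm]
  rfl

variable (b : (ℝ →ᵇ ℂ) →L[ℂ] (ℝ →ᵇ ℂ) →L[ℂ] ℂ)

/-- the form depends only on the restrictions to `[-R,R]` -/
def Loc (R : ℝ) : Prop :=
  (∀ g g' : ℝ →ᵇ ℂ, (∀ x ∈ Set.Icc (-R) R, g x = g' x) → b g = b g') ∧
  (∀ (g v v' : ℝ →ᵇ ℂ), (∀ x ∈ Set.Icc (-R) R, v x = v' x) → b g v = b g v')

/-- discretisation -/
noncomputable def Dn (R : ℝ) (n : ℕ) (F : ℂ → ℂ) : ℂ :=
  ∑ i, ∑ j, F ⟨xx R n i, xx R n j⟩ * b (bb R n i) (bb R n j)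

theorem Dn_prod (R : ℝ) (n : ℕ) (g v : ℝ →ᵇ ℂ) :
    ∑ i, ∑ j, (g (xx R n i) * v (xx R n j)) * b (bb R n i) (bb R n j) =
      b (PB R n g) (PB R n v) := by
  rw [PB_eq R n g, map_sum, _root_.sum_apply]
  refine Finset.sum_congr rfl fun i _ => ?_
  rw [map_smul, _root_.smul_apply, PB_eq R n v, map_sum, Finset.smul_sum]
  refine Finset.sum_congr rfl fun j _ => ?_
  rw [map_smul, smul_eq_mul, smul_eq_mul]
  ring

theorem norm_b_PB (R : ℝ) (n : ℕ) (g v : ℝ →ᵇ ℂ) : ‖b (PB R n g) (PB R n v)‖ ≤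
    ‖b‖ * (‖g‖ * ‖v‖) := by
  calc _ ≤ ‖b‖ * ‖PB R n g‖ * ‖PB R n v‖ := b.le_opNorm₂ _ _
    _ ≤ ‖b‖ * ‖g‖ * ‖v‖ := by
      gcongr
      · exact norm_PB_le R n g
      · exact norm_PB_le R n v
    _ = _ := by ring

theorem tendsto_b {R : ℝ} (hR : 0 < R) (hb : Loc b R) (g v : ℝ →ᵇ ℂ) :
    Tendsto (fun n => b (PB R n g) (PB R n v)) atTop (𝓝 (b g v)) := by
  have h1 : b g v = b (ofU R (toU R g)) (ofU R (toU R v)) := by
    rw [hb.1 g (ofU R (toU R g)) fun x hx => (ofU_toU hR g hx).symm]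
    exact hb.2 _ v _ fun x hx => (ofU_toU hR v hx).symm
  rw [h1]
  have h2 := (tendsto_PB R g).prodMk_nhds (tendsto_PB R v)
  have h3 : Continuous fun p : (ℝ →ᵇ ℂ) × (ℝ →ᵇ ℂ) => b p.1 p.2 := by fun_prop
  exact (h3.tendsto _).comp h2

/-- (A) expansions -/
theorem tendsto_tsum {R : ℝ} (hR : 0 < R) (hb : Loc b R) {F : ℂ → ℂ} {g v : ℕ → (ℝ →ᵇ ℂ)}
    (hs : Summable fun k => ‖g k‖ * ‖v k‖)
    (hF : ∀ z : ℂ, HasSum (fun k => g k z.re * v k z.im) (F z)) :
    Tendsto (fun n => Dn b R n F) atTop (𝓝 (∑' k, b (g k) (v k))) := by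
  have h1 : ∀ n, Dn b R n F = ∑' k, b (PB R n (g k)) (PB R n (v k)) := by
    intro n
    have h2 : HasSum (fun k => ∑ i, ∑ j, (g k (xx R n i) * v k (xx R n j)) *
        b (bb R n i) (bb R n j)) (Dn b R n F) := by
      unfold Dn
      refine hasSum_sum fun i _ => hasSum_sum fun j _ => ?_
      exact (hF ⟨xx R n i, xx R n j⟩).mul_right _
    rw [← h2.tsum_eq]
    exact tsum_congr fun k => Dn_prod b R n (g k) (v k)
  rw [show (fun n => Dn b R n F) = fun n => ∑' k, b (PB R n (g k)) (PB R n (v k)) from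
    funext h1]
  refine tendsto_tsum_of_dominated_convergence (bound := fun k => ‖b‖ * (‖g k‖ * ‖v k‖))
    (hs.mul_left _) (fun k => tendsto_b b hR hb (g k) (v k)) ?_
  exact Eventually.of_forall fun n k => norm_b_PB b R n _ _

/-- the exponential -/
noncomputable def E (a : ℝ) : ℝ →ᵇ ℂ :=
  BoundedContinuousFunction.ofNormedAddCommGroup (fun x => Complex.exp (Complex.I * a * x))
    (by fun_prop) 1 (fun x => by
      rw [show Complex.I * a * x = ((a * x : ℝ) : ℂ) * Complex.I by push_cast; ring,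
        Complex.norm_exp_ofReal_mul_I])

theorem E_apply (a x : ℝ) : E a x = Complex.exp (Complex.I * a * x) := rfl

theorem norm_E (a : ℝ) : ‖E a‖ ≤ 1 := by
  rw [BoundedContinuousFunction.norm_le zero_le_one]
  intro x
  rw [E_apply, show Complex.I * a * x = ((a * x : ℝ) : ℂ) * Complex.I by push_cast; ring,
        Complex.norm_exp_ofReal_mul_I]

theorem ee_eq (a c : ℝ) (z : ℂ) : ee a c z = E a z.re * E c z.im := rfl

/-- (B) Fourier integrals -/
theorem tendsto_int {R : ℝ} (hR : 0 < R) (hb : Loc b R) {F : ℂ → ℂ} {h : ℂ → ℂ} {a c : ℂ → ℝ}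
    (hh : Integrable h) (ha : Continuous a) (hc : Continuous c)
    (hF : ∀ z : ℂ, F z = ∫ ξ : ℂ, h ξ * ee (a ξ) (c ξ) z) :
    Tendsto (fun n => Dn b R n F) atTop (𝓝 (∫ ξ : ℂ, h ξ * b (E (a ξ)) (E (c ξ)))) ∧
      Integrable (fun ξ : ℂ => h ξ * b (E (a ξ)) (E (c ξ))) := by
  have hee : ∀ z : ℂ, Continuous fun ξ : ℂ => ee (a ξ) (c ξ) z := by
    intro z; unfold ee; fun_prop
  have hi : ∀ z : ℂ, Integrable fun ξ : ℂ => h ξ * ee (a ξ) (c ξ) z := by
    intro z
    refine hh.mul_bdd (c := 1) (hee z).aestronglyMeasurable ?_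
    exact Eventually.of_forall fun ξ => by rw [norm_ee]
  have h0 : ∀ n ξ, ∑ i, ∑ j, (h ξ * ee (a ξ) (c ξ) ⟨xx R n i, xx R n j⟩) *
      b (bb R n i) (bb R n j) = h ξ * b (PB R n (E (a ξ))) (PB R n (E (c ξ))) := by
    intro n ξ
    rw [← Dn_prod, Finset.mul_sum]
    refine Finset.sum_congr rfl fun i _ => ?_
    rw [Finset.mul_sum]
    refine Finset.sum_congr rfl fun j _ => ?_
    rw [ee_eq]
    ring
  have h1 : ∀ n, Dn b R n F = ∫ ξ : ℂ, h ξ * b (PB R n (E (a ξ))) (PB R n (E (c ξ))) := by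
    intro n
    unfold Dn
    rw [← integral_congr_ae (Eventually.of_forall fun ξ => h0 n ξ)]
    rw [integral_finsetSum _ fun i _ => integrable_finsetSum _ fun j _ => (hi _).mul_const _]
    refine Finset.sum_congr rfl fun i _ => ?_
    rw [integral_finsetSum _ fun j _ => (hi _).mul_const _]
    refine Finset.sum_congr rfl fun j _ => ?_
    rw [integral_mul_const, hF]
  have hm : ∀ n, AEStronglyMeasurable
      (fun ξ : ℂ => h ξ * b (PB R n (E (a ξ))) (PB R n (E (c ξ)))) := by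
    intro n
    have h2 : Integrable fun ξ : ℂ => ∑ i, ∑ j, (h ξ * ee (a ξ) (c ξ) ⟨xx R n i, xx R n j⟩) *
      b (bb R n i) (bb R n j) :=
      integrable_finsetSum _ fun i _ => integrable_finsetSum _ fun j _ => (hi _).mul_const _
    exact h2.aestronglyMeasurable.congr (Eventually.of_forall fun ξ => h0 n ξ)
  have hbd : ∀ n ξ, ‖h ξ * b (PB R n (E (a ξ))) (PB R n (E (c ξ)))‖ ≤ ‖h ξ‖ * ‖b‖ := by
    intro n ξ
    rw [norm_mul]
    gcongr
    refine (norm_b_PB b R n _ _).trans ?_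
    have := norm_E (a ξ)
    have := norm_E (c ξ)
    calc ‖b‖ * (‖E (a ξ)‖ * ‖E (c ξ)‖) ≤ ‖b‖ * (1 * 1) := by gcongr
      _ = _ := by ring
  have hl : ∀ ξ, Tendsto (fun n => h ξ * b (PB R n (E (a ξ))) (PB R n (E (c ξ)))) atTop
      (𝓝 (h ξ * b (E (a ξ)) (E (c ξ)))) := fun ξ =>
    (tendsto_b b hR hb _ _).const_mul _
  constructor
  · rw [show (fun n => Dn b R n F) = fun n =>
      ∫ ξ : ℂ, h ξ * b (PB R n (E (a ξ))) (PB R n (E (c ξ))) from funext h1]
    exact tendsto_integral_of_dominated_convergence (fun ξ => ‖h ξ‖ * ‖b‖) hm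
      (hh.norm.mul_const _) (fun n => Eventually.of_forall (hbd n)) (Eventually.of_forall hl)
  · have h3 : AEStronglyMeasurable (fun ξ : ℂ => h ξ * b (E (a ξ)) (E (c ξ))) :=
      aestronglyMeasurable_of_tendsto_ae atTop hm (Eventually.of_forall hl)
    refine (hh.norm.mul_const ‖b‖).mono' h3 (Eventually.of_forall fun ξ => ?_)
    exact le_of_tendsto (hl ξ).norm (Eventually.of_forall fun n => hbd n ξ)

end Pool.LG.BM
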