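import Mathlib

/-!
# Bimeasures, part Y: smooth functions with compact support are absolutely convergent sums of
products
-/

open MeasureTheory Filter
open scoped BoundedContinuousFunction Topology Real

namespace Pool.LG.BM

/-- expansions of smooth functions -/
theorem expand {F : ℂ → ℂ} (hF : ContDiff ℝ (⊤ : ℕ∞) F) (hFc : HasCompactSupport F) :
    ∃ g v : ℕ → (ℝ →ᵇ ℂ), (∀ k, HasCompactSupport (g k) ∧ HasCompactSupport (v k)) ∧
      (Summable fun k => ‖g k‖ * ‖v k‖) ∧
      ∀ z : ℂ, HasSum (fun k => g k z.re * v k z.im) (F z) := by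
  -- the support
  obtain ⟨r, hr⟩ := hFc.isCompact.isBounded.subset_closedBall 0
  set L : ℝ := 2 * max r 1 with hL
  have hL0 : 0 < L := by rw [hL]; have := le_max_right r 1; linarith
  have hz : ∀ x y : ℝ, L / 2 < |x| → F ⟨x, y⟩ = 0 := by
    intro x y hx
    by_contra h
    have h1 : (⟨x, y⟩ : ℂ) ∈ tsupport F := subset_tsupport _ h
    have h2 := hr h1
    rw [mem_closedBall_zero_iff] at h2
    have h3 : |x| ≤ ‖(⟨x, y⟩ : ℂ)‖ := Complex.abs_re_le_norm ⟨x, y⟩
    have h4 : L / 2 = max r 1 := by rw [hL]; ring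
    have := le_max_left r 1
    linarith
  have hzy : ∀ x y : ℝ, L / 2 < |y| → F ⟨x, y⟩ = 0 := by
    intro x y hx
    by_contra h
    have h1 : (⟨x, y⟩ : ℂ) ∈ tsupport F := subset_tsupport _ h
    have h2 := hr h1
    rw [mem_closedBall_zero_iff] at h2
    have h3 : |y| ≤ ‖(⟨x, y⟩ : ℂ)‖ := Complex.abs_im_le_norm ⟨x, y⟩
    have h4 : L / 2 = max r 1 := by rw [hL]; ring
    have := le_max_left r 1
    linarith
  set T : ℝ := 2 * L with hT
  have hT0 : 0 < T := by positivity
  have : Fact (0 < T) := ⟨hT0⟩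
  have hab : -L < -L + T := by linarith
  have hend : -L + T = L := by rw [hT]; ring
  -- derivatives
  set F1 : ℂ → ℂ := fun z => fderiv ℝ F z 1 with hF1
  set F2 : ℂ → ℂ := fun z => fderiv ℝ F1 z 1 with hF2
  have hF1s : ContDiff ℝ (⊤ : ℕ∞) F1 := by
    have h1 : ContDiff ℝ (⊤ : ℕ∞) (fderiv ℝ F) := hF.fderiv_right (m := (⊤ : ℕ∞)) (by simp)
    exact h1.clm_apply contDiff_const
  have hF2s : ContDiff ℝ (⊤ : ℕ∞) F2 := by
    have h1 : ContDiff ℝ (⊤ : ℕ∞) (fderiv ℝ F1) := hF1s.fderiv_right (m := (⊤ : ℕ∞)) (by simp)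
    exact h1.clm_apply contDiff_const
  have hF1c : HasCompactSupport F1 := hFc.fderiv_apply (𝕜 := ℝ) 1
  have hF2c : HasCompactSupport F2 := hF1c.fderiv_apply (𝕜 := ℝ) 1
  obtain ⟨C0, hC0⟩ := hF.continuous.bounded_above_of_compact_support hFc
  obtain ⟨C2, hC2⟩ := hF2s.continuous.bounded_above_of_compact_support hF2c
  have hC0' : 0 ≤ C0 := (norm_nonneg _).trans (hC0 0)
  have hC2' : 0 ≤ C2 := (norm_nonneg _).trans (hC2 0)
  have hline : ∀ (G : ℂ → ℂ), ContDiff ℝ (⊤ : ℕ∞) G → ∀ x y : ℝ,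
      HasDerivAt (fun x : ℝ => G ⟨x, y⟩) (fderiv ℝ G ⟨x, y⟩ 1) x := by
    intro G hG x y
    have h1 : HasFDerivAt G (fderiv ℝ G ⟨x, y⟩) ⟨x, y⟩ :=
      (hG.differentiable (by simp) _).hasFDerivAt
    have h2 : HasDerivAt (fun x : ℝ => ((x : ℂ) + y * Complex.I)) 1 x := by
      have h3 : HasDerivAt (fun x : ℝ => ((x : ℝ) : ℂ)) 1 x := Complex.ofRealCLM.hasDerivAt
      simpa using h3.add_const ((y : ℂ) * Complex.I)
    have h4 : ∀ x : ℝ, ((x : ℂ) + y * Complex.I) = ⟨x, y⟩ := fun x => by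
      apply Complex.ext <;> simp
    rw [← h4 x] at h1
    have h5 := h1.comp_hasDerivAt x h2
    rw [h4 x] at h5
    refine h5.congr_of_eventuallyEq (Eventually.of_forall fun x => ?_)
    simp only [Function.comp]
    rw [h4]
  -- continuity in both variables
  have hpair : ∀ (G : ℂ → ℂ), Continuous G → Continuous fun p : ℝ × ℝ => G ⟨p.1, p.2⟩ := by
    intro G hG
    have h4 : (fun p : ℝ × ℝ => G ⟨p.1, p.2⟩) = fun p : ℝ × ℝ =>
        G ((p.1 : ℂ) + p.2 * Complex.I) := by
      funext p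
      congr 1
      apply Complex.ext <;> simp
    rw [h4]
    fun_prop
  have hx : ∀ (G : ℂ → ℂ), Continuous G → ∀ y : ℝ, Continuous fun x : ℝ => G ⟨x, y⟩ := by
    intro G hG y
    exact (hpair G hG).comp (by fun_prop : Continuous fun x : ℝ => (x, y))
  have hxz : ∀ (G : ℂ → ℂ), ContDiff ℝ (⊤ : ℕ∞) G →
      (∀ x y : ℝ, L / 2 < |x| → G ⟨x, y⟩ = 0) → ∀ x y : ℝ, L / 2 < |x| →
        fderiv ℝ G ⟨x, y⟩ 1 = 0 := by
    intro G hG h0 x y hxy
    have h1 : (fun x : ℝ => G ⟨x, y⟩) =ᶠ[𝓝 x] fun _ => 0 := by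
      have : ∀ᶠ x' in 𝓝 x, L / 2 < |x'| := (continuous_abs.tendsto x).eventually_const_lt hxy
      filter_upwards [this] with x' hx'
      exact h0 x' y hx'
    have h2 := (hline G hG x y).congr_of_eventuallyEq h1.symm
    exact h2.unique (hasDerivAt_const x (0 : ℂ))
  have hz1 := hxz F hF hz
  have hLabs : L / 2 < |L| := by rw [abs_of_pos hL0]; linarith
  have hLabs' : L / 2 < |(-L)| := by rw [abs_neg]; exact hLabs
  -- coefficients
  set c : ℤ → ℝ → ℂ := fun n y => fourierCoeffOn hab (fun x => F ⟨x, y⟩) n with hc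
  have hstep : ∀ (G : ℂ → ℂ), ContDiff ℝ (⊤ : ℕ∞) G →
      (∀ x y : ℝ, L / 2 < |x| → G ⟨x, y⟩ = 0) → ∀ (n : ℤ), n ≠ 0 → ∀ y : ℝ,
      ‖fourierCoeffOn hab (fun x => G ⟨x, y⟩) n‖ =
        T / (2 * π * |(n : ℝ)|) * ‖fourierCoeffOn hab (fun x => fderiv ℝ G ⟨x, y⟩ 1) n‖ := by
    intro G hG h0 n hn y
    have h1 : Continuous fun x : ℝ => fderiv ℝ G ⟨x, y⟩ 1 := by
      have h2 : ContDiff ℝ (⊤ : ℕ∞) (fun z => fderiv ℝ G z 1) := by
        have h3 : ContDiff ℝ (⊤ : ℕ∞) (fderiv ℝ G) := hG.fderiv_right (m := (⊤ : ℕ∞)) (by simp)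
        exact h3.clm_apply contDiff_const
      exact hx _ h2.continuous y
    rw [fourierCoeffOn_of_hasDerivAt hab hn (fun x _ => hline G hG x y)
      (h1.intervalIntegrable _ _)]
    have e1 : G ⟨-L + T, y⟩ = 0 := by rw [hend]; exact h0 L y hLabs
    have e2 : G ⟨-L, y⟩ = 0 := h0 (-L) y hLabs'
    simp only [e1, e2, sub_zero, mul_zero, zero_sub, norm_mul, norm_neg, norm_div, norm_one]
    have e3 : ‖((-L + T : ℝ) : ℂ) - ((-L : ℝ) : ℂ)‖ = T := by
      rw [← Complex.ofReal_sub, Complex.norm_real, Real.norm_eq_abs,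
        show -L + T - -L = T by ring, abs_of_pos hT0]
    rw [e3]
    have e4 : ‖(2 : ℂ)‖ = 2 := by norm_num
    have e5 : ‖(π : ℂ)‖ = π := by rw [Complex.norm_real, Real.norm_eq_abs, abs_of_pos Real.pi_pos]
    have e6 : ‖(n : ℂ)‖ = |(n : ℝ)| := Complex.norm_intCast n
    rw [e4, e5, e6, Complex.norm_I]
    ring
  have hcb0 : ∀ (G : ℂ → ℂ) (K : ℝ), (∀ z, ‖G z‖ ≤ K) → ∀ (n : ℤ) (y : ℝ),
      ‖fourierCoeffOn hab (fun x => G ⟨x, y⟩) n‖ ≤ K := by
    intro G K hK n y
    rw [fourierCoeffOn_eq_integral, norm_smul]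
    have h1 : ‖∫ x in (-L)..(-L + T), fourier (-n) (x : AddCircle (-L + T - -L)) • G ⟨x, y⟩‖ ≤
        K * |(-L + T) - (-L)| := by
      refine intervalIntegral.norm_integral_le_of_norm_le_const fun x _ => ?_
      rw [norm_smul]
      have h2 : ‖fourier (-n) (x : AddCircle (-L + T - -L))‖ = 1 := by
        rw [fourier_apply]; exact Circle.norm_coe _
      rw [h2, one_mul]
      exact hK _
    have e1 : (-L + T) - (-L) = T := by ring
    rw [e1, abs_of_pos hT0] at h1
    rw [e1, Real.norm_eq_abs, abs_of_pos (by positivity)]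
    calc 1 / T * _ ≤ 1 / T * (K * T) := by gcongr
      _ = K := by field_simp
  have hcb : ∀ (n : ℤ), n ≠ 0 → ∀ y, ‖c n y‖ ≤ (T / (2 * π)) ^ 2 * C2 * (1 / (n : ℝ) ^ 2) := by
    intro n hn y
    have h1 := hstep F hF hz n hn y
    have h2 := hstep F1 hF1s (fun x y h => hz1 x y h) n hn y
    have h3 := hcb0 F2 C2 hC2 n y
    have hn' : (0 : ℝ) < |(n : ℝ)| := abs_pos.2 (by exact_mod_cast hn)
    change ‖fourierCoeffOn hab (fun x => F ⟨x, y⟩) n‖ ≤ _
    rw [h1]
    change T / (2 * π * |(n : ℝ)|) * ‖fourierCoeffOn hab (fun x => F1 ⟨x, y⟩) n‖ ≤ _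
    rw [h2]
    change T / (2 * π * |(n : ℝ)|) * (T / (2 * π * |(n : ℝ)|) *
      ‖fourierCoeffOn hab (fun x => F2 ⟨x, y⟩) n‖) ≤ _
    calc _ ≤ T / (2 * π * |(n : ℝ)|) * (T / (2 * π * |(n : ℝ)|) * C2) := by gcongr
      _ = (T / (2 * π)) ^ 2 * C2 * (1 / |(n : ℝ)| ^ 2) := by
        have := Real.pi_pos
        field_simp
      _ = _ := by rw [sq_abs]
  set bd : ℤ → ℝ := fun n => (if n = 0 then C0 else 0) +
    (T / (2 * π)) ^ 2 * C2 * (1 / (n : ℝ) ^ 2) with hbd
  have hbds : Summable bd := by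
    refine Summable.add ?_ ?_
    · exact summable_of_ne_finset_zero (s := {0}) fun n hn => by
        rw [Finset.mem_singleton] at hn
        simp [hn]
    · exact (Real.summable_one_div_int_pow.2 one_lt_two).mul_left _
  have hcbd : ∀ n y, ‖c n y‖ ≤ bd n := by
    intro n y
    by_cases hn : n = 0
    · subst hn
      have h1 := hcb0 F C0 hC0 0 y
      simp only [hbd, if_true, Int.cast_zero]
      simpa using h1
    · have h1 := hcb n hn y
      simp only [hbd, if_neg hn, zero_add]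
      exact h1
  -- continuity of the coefficients
  have hcc : ∀ n, Continuous (c n) := by
    intro n
    have h1 : c n = fun y => (1 / (-L + T - -L)) •
        ∫ x in (-L)..(-L + T), fourier (-n) (x : AddCircle (-L + T - -L)) • F ⟨x, y⟩ := by
      funext y
      exact fourierCoeffOn_eq_integral _ _ hab
    rw [h1]
    refine Continuous.const_smul (M := ℝ) ?_ _
    refine intervalIntegral.continuous_parametric_intervalIntegral_of_continuous' ?_ _ _
    have h2 : Continuous fun x : ℝ => fourier (-n) (x : AddCircle (-L + T - -L)) :=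
      (fourier (-n)).continuous.comp (AddCircle.continuous_mk' _)
    have h3 : Continuous fun p : ℝ × ℝ => F ⟨p.2, p.1⟩ :=
      (hpair F hF.continuous).comp (continuous_snd.prodMk continuous_fst)
    have h4 : Continuous fun p : ℝ × ℝ =>
        (fourier (-n) (p.2 : AddCircle (-L + T - -L)) : ℂ) • F ⟨p.2, p.1⟩ :=
      (h2.comp continuous_snd).smul h3
    exact h4
  -- the pointwise sum
  have hser : ∀ (y x : ℝ), x ∈ Set.Ico (-L) L → HasSum (fun n : ℤ =>
      c n y * fourier n (x : AddCircle T)) (F ⟨x, y⟩) := by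
    intro y x hxm
    have hcont : Continuous (AddCircle.liftIco T (-L) fun x => F ⟨x, y⟩) := by
      refine AddCircle.liftIco_continuous ?_ (hx F hF.continuous y).continuousOn
      rw [hend, hz L y hLabs, hz (-L) y hLabs']
    set f : C(AddCircle T, ℂ) := ⟨_, hcont⟩ with hf
    have h1 : ∀ n, fourierCoeff f n = c n y := fun n => fourierCoeff_liftIco_eq _ n
    have h2 : Summable (fourierCoeff f) := by
      refine Summable.of_norm_bounded hbds fun n => ?_
      rw [h1]; exact hcbd n y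
    have h3 := has_pointwise_sum_fourier_series_of_summable h2 (x : AddCircle T)
    have h4 : f (x : AddCircle T) = F ⟨x, y⟩ := by
      have : x ∈ Set.Ico (-L) (-L + T) := by rw [hend]; exact hxm
      exact AddCircle.liftIco_coe_apply (f := fun x => F ⟨x, y⟩) this
    rw [h4] at h3
    refine h3.congr_fun ?_ |> id
    intro n
    rw [h1, smul_eq_mul]
  -- the cut-off
  set χ : ℝ → ℝ := fun x => max 0 (min 1 (2 - 2 * |x| / L)) with hχ
  have hχc : Continuous χ := by rw [hχ]; fun_prop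
  have hχ0 : ∀ x, 0 ≤ χ x := fun x => le_max_left _ _
  have hχ1 : ∀ x, χ x ≤ 1 := fun x => max_le zero_le_one (min_le_left _ _)
  have hχa : ∀ x, |x| ≤ L / 2 → χ x = 1 := by
    intro x hx
    simp only [hχ]
    have h1 : 2 * |x| / L ≤ 1 := by
      rw [div_le_one hL0]; linarith
    rw [min_eq_left (by linarith), max_eq_right zero_le_one]
  have hχb : ∀ x, L ≤ |x| → χ x = 0 := by
    intro x hx
    simp only [hχ]
    have h1 : 2 ≤ 2 * |x| / L := by
      rw [le_div_iff₀ hL0]; linarith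
    exact max_eq_left ((min_le_right _ _).trans (by linarith))
  set e : ℕ ≃ ℤ := Equiv.intEquivNat.symm with he
  refine ⟨fun k => BoundedContinuousFunction.ofNormedAddCommGroup
      (fun x : ℝ => (χ x : ℂ) * fourier (e k) (x : AddCircle T)) ?_ 1 ?_,
    fun k => BoundedContinuousFunction.ofNormedAddCommGroup (c (e k)) (hcc _) (bd (e k))
      (hcbd _), fun k => ⟨?_, ?_⟩, ?_, ?_⟩
  · refine (Complex.continuous_ofReal.comp hχc).mul ?_
    exact (fourier (e k)).continuous.comp (AddCircle.continuous_mk' _)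
  · intro x
    have h2 : ‖fourier (e k) (x : AddCircle T)‖ = 1 := by
      rw [fourier_apply]; exact Circle.norm_coe _
    rw [norm_mul, h2, mul_one, Complex.norm_real, Real.norm_eq_abs, abs_of_nonneg (hχ0 x)]
    exact hχ1 x
  · refine HasCompactSupport.intro (isCompact_Icc (a := -L) (b := L)) fun x hx => ?_
    change (χ x : ℂ) * fourier (e k) (x : AddCircle T) = 0
    have h1 : L ≤ |x| := by
      by_contra h2
      push Not at h2
      exact hx ⟨(abs_lt.1 h2).1.le, (abs_lt.1 h2).2.le⟩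
    rw [hχb x h1, Complex.ofReal_zero, zero_mul]
  · refine HasCompactSupport.intro (isCompact_Icc (a := -L) (b := L)) fun y hy => ?_
    change c (e k) y = 0
    have h1 : L / 2 < |y| := by
      by_contra h2
      push Not at h2
      exact hy ⟨by linarith [(abs_le.1 h2).1], by linarith [(abs_le.1 h2).2]⟩
    simp only [hc]
    rw [fourierCoeffOn_eq_integral]
    have h2 : (fun x : ℝ => F ⟨x, y⟩) = fun _ => 0 := funext fun x => hzy x y h1
    simp [hzy _ y h1]
  · refine Summable.of_nonneg_of_le (fun k => by positivity) (fun k => ?_)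
      ((e.summable_iff (f := bd)).2 hbds)
    have h1 := BoundedContinuousFunction.norm_ofNormedAddCommGroup_le
      (f := fun x : ℝ => (χ x : ℂ) * fourier (e k) (x : AddCircle T)) (hfc := by
        refine (Complex.continuous_ofReal.comp hχc).mul ?_
        exact (fourier (e k)).continuous.comp (AddCircle.continuous_mk' _)) zero_le_one (by
        intro x
        have h2 : ‖fourier (e k) (x : AddCircle T)‖ = 1 := by
          rw [fourier_apply]; exact Circle.norm_coe _
        rw [norm_mul, h2, mul_one, Complex.norm_real, Real.norm_eq_abs, abs_of_nonneg (hχ0 x)]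
        exact hχ1 x)
    have h2 := BoundedContinuousFunction.norm_ofNormedAddCommGroup_le (f := c (e k))
      (hfc := hcc _) ((norm_nonneg _).trans (hcbd (e k) 0)) (hcbd (e k))
    calc _ ≤ 1 * bd (e k) := by
          refine mul_le_mul h1 h2 (norm_nonneg _) zero_le_one
      _ = _ := one_mul _
  · intro z
    change HasSum (fun k => (χ z.re : ℂ) * fourier (e k) (z.re : AddCircle T) * c (e k) z.im) (F z)
    have hzz : F z = F ⟨z.re, z.im⟩ := rfl
    rw [hzz]
    by_cases h1 : L ≤ |z.re|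
    · rw [hχb _ h1, hz z.re z.im (by linarith)]
      simp
    · push Not at h1
      have h2 : z.re ∈ Set.Ico (-L) L := ⟨(abs_lt.1 h1).1.le, (abs_lt.1 h1).2⟩
      have h3 := (hser z.im z.re h2).mul_left (χ z.re : ℂ)
      have h4 : (χ z.re : ℂ) * F ⟨z.re, z.im⟩ = F ⟨z.re, z.im⟩ := by
        by_cases h5 : |z.re| ≤ L / 2
        · rw [hχa _ h5, Complex.ofReal_one, one_mul]
        · push Not at h5
          rw [hz _ _ h5, mul_zero]
      rw [h4] at h3
      have h6 := (e.hasSum_iff).2 h3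
      refine h6.congr_fun ?_ |> id
      intro k
      simp only [Function.comp]
      ring

end Pool.LG.BM
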