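import Pool.Agent.Work.LipGraph.Bimeas.G
import Pool.Agent.Work.LipGraph.Bimeas.X
import Pool.Agent.Work.LipGraph.Bimeas.Y

/-!
# Bimeasures, part F: assembly
-/

open MeasureTheory Filter
open scoped ComplexOrder InnerProductSpace BoundedContinuousFunction Nat SchwartzMap FourierTransform
open scoped LineDeriv

namespace Pool.LG.BM

open Pool.PN Pool.FR Pool.FR.FAux ODAux OFAux OGAux TSAux

universe v

/-- clamp -/
noncomputable def cl (R : ℝ) : ℝ →ᵇ ℂ :=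
  BoundedContinuousFunction.ofNormedAddCommGroup (fun x => ((max (-R) (min R x) : ℝ) : ℂ))
    (by fun_prop) |R| (fun x => by
      rw [Complex.norm_real, Real.norm_eq_abs]
      rcases le_total 0 R with h | h
      · rw [abs_of_nonneg h, abs_le]
        exact ⟨le_max_left _ _, max_le (by linarith) (min_le_left _ _)⟩
      · rw [abs_of_nonpos h]
        have h1 : max (-R) (min R x) = -R := max_eq_left ((min_le_left _ _).trans (by linarith))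
        rw [h1, abs_of_nonneg (by linarith)])

theorem norm_cl (R : ℝ) : ‖cl R‖ ≤ |R| :=
  BoundedContinuousFunction.norm_ofNormedAddCommGroup_le _ (abs_nonneg _) _

theorem cl_apply {R x : ℝ} (hx : x ∈ Set.Icc (-R) R) : cl R x = (x : ℂ) := by
  change ((max (-R) (min R x) : ℝ) : ℂ) = (x : ℂ)
  rw [min_eq_right hx.2, max_eq_right hx.1]

theorem clpow_apply {R x : ℝ} (hx : x ∈ Set.Icc (-R) R) (k : ℕ) : (cl R ^ k) x = (x : ℂ) ^ k := by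
  rw [BoundedContinuousFunction.coe_pow, Pi.pow_apply, cl_apply hx]

theorem norm_clpow {R : ℝ} (hR : 0 ≤ R) (k : ℕ) : ‖cl R ^ k‖ ≤ R ^ k := by
  refine (norm_pow_le _ _).trans ?_
  have := norm_cl R
  rw [abs_of_nonneg hR] at this
  gcongr

/-- the exponential series -/
theorem series {R : ℝ} (hR : 0 ≤ R) (a : ℝ) : ∃ G : ℝ →ᵇ ℂ,
    (∀ x ∈ Set.Icc (-R) R, G x = E a x) ∧
    (Summable fun k : ℕ => ‖((Complex.I * a) ^ k / (k ! : ℂ)) • cl R ^ k‖) ∧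
    HasSum (fun k : ℕ => ((Complex.I * a) ^ k / (k ! : ℂ)) • cl R ^ k) G ∧
    (Summable fun k : ℕ => ‖((Complex.I * a) ^ k / (k ! : ℂ)) • ((k : ℂ) • cl R ^ (k - 1))‖) ∧
    HasSum (fun k : ℕ => ((Complex.I * a) ^ k / (k ! : ℂ)) • ((k : ℂ) • cl R ^ (k - 1)))
      ((Complex.I * a) • G) := by
  have hn : ∀ k : ℕ, ‖((Complex.I * a) ^ k / (k ! : ℂ)) • cl R ^ k‖ ≤
      (|a| * R) ^ k / (k ! : ℝ) := by
    intro k
    rw [norm_smul, norm_div, norm_pow, norm_mul, Complex.norm_I, one_mul, Complex.norm_real,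
      Real.norm_eq_abs, Complex.norm_natCast, mul_pow]
    have := norm_clpow hR k
    calc |a| ^ k / (k ! : ℝ) * ‖cl R ^ k‖ ≤ |a| ^ k / (k ! : ℝ) * R ^ k := by gcongr
      _ = _ := by ring
  have hs : Summable fun k : ℕ => ‖((Complex.I * a) ^ k / (k ! : ℂ)) • cl R ^ k‖ :=
    Summable.of_nonneg_of_le (fun _ => norm_nonneg _) hn (hs_rexp (|a| * R)).summable
  have hG := hs.of_norm.hasSum
  set G := ∑' k : ℕ, ((Complex.I * a) ^ k / (k ! : ℂ)) • cl R ^ k with hGdef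
  -- the shifted series
  have e1 : ∀ k : ℕ, ((Complex.I * a) ^ (k + 1) / ((k + 1)! : ℂ)) •
      (((k + 1 : ℕ) : ℂ) • cl R ^ (k + 1 - 1)) =
      (Complex.I * a) • (((Complex.I * a) ^ k / (k ! : ℂ)) • cl R ^ k) := by
    intro k
    rw [Nat.add_sub_cancel, smul_smul, smul_smul, Nat.factorial_succ]
    congr 1
    push_cast
    have h1 : ((k : ℂ) + 1) ≠ 0 := by exact_mod_cast Nat.succ_ne_zero k
    have h2 : (k ! : ℂ) ≠ 0 := by exact_mod_cast Nat.factorial_ne_zero k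
    rw [pow_succ]
    field_simp
  refine ⟨G, fun x hx => ?_, hs, hG, ?_, ?_⟩
  · have h1 : HasSum (fun k : ℕ => (((Complex.I * a) ^ k / (k ! : ℂ)) • cl R ^ k) x) (G x) :=
      (BoundedContinuousFunction.evalCLM ℂ x).hasSum hG
    have h2 := hs_exp (Complex.I * a * x)
    rw [E_apply]
    refine h1.unique (h2.congr_fun ?_ |> id)
    intro k
    change ((Complex.I * a) ^ k / (k ! : ℂ)) • (cl R ^ k) x = (Complex.I * a * x) ^ k / (k ! : ℂ)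
    rw [clpow_apply hx, smul_eq_mul, mul_pow (Complex.I * (a : ℂ))]
    ring
  · rw [← summable_nat_add_iff 1]
    simp only [e1, norm_smul (Complex.I * (a : ℂ))]
    exact hs.mul_left _
  · rw [← hasSum_nat_add_iff' 1]
    simp only [e1, Finset.range_one, Finset.sum_singleton]
    rw [Nat.cast_zero, zero_smul, smul_zero, sub_zero]
    exact hG.const_smul _

/-- bilinear double series -/
theorem bil_hasSum {V W : Type*} [NormedAddCommGroup V] [NormedSpace ℂ V] [NormedAddCommGroup W]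
    [NormedSpace ℂ W] (b : V →L[ℂ] W →L[ℂ] ℂ) {f : ℕ → V} {g : ℕ → W} {F : V} {G : W}
    (hf : HasSum f F) (hg : HasSum g G) (nf : Summable fun k => ‖f k‖)
    (ng : Summable fun k => ‖g k‖) : HasSum (fun p : ℕ × ℕ => b (f p.1) (g p.2)) (b F G) := by
  have hs : Summable (fun p : ℕ × ℕ => b (f p.1) (g p.2)) := by
    refine Summable.of_norm_bounded (g := fun p : ℕ × ℕ => ‖b‖ * (‖f p.1‖ * ‖g p.2‖))
      ((nf.mul_of_nonneg ng (fun _ => norm_nonneg _) (fun _ => norm_nonneg _)).mul_left _)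
      fun p => ?_
    refine (b.le_opNorm₂ _ _).trans (le_of_eq (by ring))
  have h1 : HasSum (fun k => b (f k) G) (∑' p : ℕ × ℕ, b (f p.1) (g p.2)) :=
    hs.hasSum.prod_fiberwise fun k => (b (f k)).hasSum hg
  have h2 : HasSum (fun k => b (f k) G) (b F G) :=
    ((ContinuousLinearMap.apply ℂ ℂ G).comp b).hasSum hf
  rw [h2.unique h1]
  exact hs.hasSum

variable {H : Type v} [NormedAddCommGroup H] [InnerProductSpace ℂ H] [CompleteSpace H]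

theorem cont_re : Continuous fun z : ℂ => (z.re : ℂ) :=
  Complex.continuous_ofReal.comp Complex.continuous_re

theorem cont_im : Continuous fun z : ℂ => (z.im : ℂ) :=
  Complex.continuous_ofReal.comp Complex.continuous_im

theorem rp_cfc {N : H →L[ℂ] H} (hN : IsStarNormal N) : rp N = cfc (fun z : ℂ => (z.re : ℂ)) N := by
  have h := cfc_re (rp_sa N) (ip_sa N) (rp_comm hN)
  rw [NN_rp] at h
  exact h.symm

theorem ip_cfc {N : H →L[ℂ] H} (hN : IsStarNormal N) : ip N = cfc (fun z : ℂ => (z.im : ℂ)) N := by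
  have h := cfc_im (rp_sa N) (ip_sa N) (rp_comm hN)
  rw [NN_rp] at h
  exact h.symm

theorem spec_le {N : H →L[ℂ] H} {z : ℂ} (hz : z ∈ spectrum ℂ N) : ‖z‖ ≤ ‖N‖ := by
  have h1 := spectrum.norm_le_norm_mul_of_mem hz
  have h2 : ‖(1 : H →L[ℂ] H)‖ ≤ 1 := ContinuousLinearMap.norm_id_le
  calc ‖z‖ ≤ ‖N‖ * ‖(1 : H →L[ℂ] H)‖ := h1
    _ ≤ ‖N‖ * 1 := by gcongr
    _ = _ := mul_one _

/-- functions of a coordinate -/
noncomputable def psi (N : H →L[ℂ] H) (_hN : IsStarNormal N) (ρ : ℂ → ℝ) (hρ : Continuous ρ) :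
    (ℝ →ᵇ ℂ) →ₗ[ℂ] (H →L[ℂ] H) where
  toFun w := cfc (fun z : ℂ => w (ρ z)) N
  map_add' w w' := by
    have h1 : (fun z : ℂ => (w + w') (ρ z)) = fun z => w (ρ z) + w' (ρ z) := by
      funext z; simp
    rw [h1]
    exact cfc_add N (fun z : ℂ => w (ρ z)) (fun z : ℂ => w' (ρ z))
      (by fun_prop) (by fun_prop)
  map_smul' c w := by
    have h1 : (fun z : ℂ => (c • w) (ρ z)) = fun z => c * w (ρ z) := by
      funext z; simp
    rw [h1]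
    exact cfc_const_mul c (fun z : ℂ => w (ρ z)) N (by fun_prop)

theorem psi_apply (N : H →L[ℂ] H) (hN : IsStarNormal N) (ρ : ℂ → ℝ) (hρ : Continuous ρ)
    (w : ℝ →ᵇ ℂ) : psi N hN ρ hρ w = cfc (fun z : ℂ => w (ρ z)) N := rfl

theorem norm_psi (N : H →L[ℂ] H) (hN : IsStarNormal N) (ρ : ℂ → ℝ) (hρ : Continuous ρ)
    (w : ℝ →ᵇ ℂ) : ‖psi N hN ρ hρ w‖ ≤ ‖w‖ := by
  rw [psi_apply]
  exact norm_cfc_le (norm_nonneg _) fun z _ => w.norm_coe_le_norm _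

theorem psi_comm (N : H →L[ℂ] H) (hN : IsStarNormal N) (ρ : ℂ → ℝ) (hρ : Continuous ρ)
    (w : ℝ →ᵇ ℂ) (h : ℂ → ℂ) : cfc h N * psi N hN ρ hρ w = psi N hN ρ hρ w * cfc h N := by
  rw [psi_apply]
  exact cfc_commute_cfc _ _ N

theorem psi_comm' (N : H →L[ℂ] H) (hN : IsStarNormal N) (ρ : ℂ → ℝ) (hρ : Continuous ρ)
    (w : ℝ →ᵇ ℂ) (h : ℂ → ℂ) :
    cfc h N * star (psi N hN ρ hρ w) = star (psi N hN ρ hρ w) * cfc h N := by
  rw [psi_apply, ← cfc_star]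
  exact cfc_commute_cfc _ _ N

theorem psi_zero {N : H →L[ℂ] H} (hN : IsStarNormal N) {ρ : ℂ → ℝ} (hρ : Continuous ρ) {R : ℝ}
    (hR : ‖N‖ ≤ R) (hρn : ∀ z, |ρ z| ≤ ‖z‖) {w : ℝ →ᵇ ℂ} (hw : ∀ x ∈ Set.Icc (-R) R, w x = 0) :
    psi N hN ρ hρ w = 0 := by
  rw [psi_apply]
  have h1 : cfc (fun z : ℂ => w (ρ z)) N = cfc (fun _ : ℂ => (0 : ℂ)) N := by
    refine cfc_congr fun z hz => ?_
    refine hw _ ?_
    rw [Set.mem_Icc, ← abs_le]
    exact (hρn z).trans ((spec_le hz).trans hR)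
  rw [h1, cfc_const_zero]

theorem psi_pow {N : H →L[ℂ] H} (hN : IsStarNormal N) {ρ : ℂ → ℝ} (hρ : Continuous ρ) {R : ℝ}
    (hR : ‖N‖ ≤ R) (hρn : ∀ z, |ρ z| ≤ ‖z‖) (k : ℕ) :
    psi N hN ρ hρ (cl R ^ k) = (cfc (fun z : ℂ => (ρ z : ℂ)) N) ^ k := by
  rw [psi_apply, ← cfc_pow (fun z : ℂ => (ρ z : ℂ)) k N (by fun_prop)]
  refine cfc_congr fun z hz => ?_
  refine clpow_apply ?_ k
  rw [Set.mem_Icc, ← abs_le]
  exact (hρn z).trans ((spec_le hz).trans hR)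

theorem ser_neg {V : H →L[ℂ] H} {M : ℝ} (h : Ser V M) : Ser (-V) M := by
  obtain ⟨ν, l, h1, h2, h3⟩ := h
  refine ⟨fun j => -ν j, l, by simpa using h1, by simpa using h2, fun z => ?_⟩
  refine ((h3 z).neg).congr_fun ?_ |> id
  intro j
  push_cast
  rw [neg_mul, neg_smul]

/-- the operator form of the diagonal inequality with a constant -/
def ODC (C : ℝ) : Prop := ∀ (H : Type v) [NormedAddCommGroup H]
    [InnerProductSpace ℂ H] [CompleteSpace H]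
    (X X' S : H →L[ℂ] H), IsSelfAdjoint X → IsSelfAdjoint S → X * S = S * X →
    ∀ (M : ℝ), Ser (X' - X) M → ∀ (p : Polynomial ℝ) (R L : ℝ), ‖X‖ + M ≤ R → 0 ≤ L →
      (∀ t, |t| ≤ R → |p.derivative.eval t| ≤ L) →
      ∃ (N : ℝ) (τ : (H →L[ℂ] H) →ₗ[ℂ] ℂ), Nuc (ev X' p - ev X p) N τ ∧
        ‖τ S‖ ≤ C * L * ‖S‖ * M

/-- the two forms of a pair of normal operators -/
theorem forms {C : ℝ} (hC0 : 0 ≤ C) (hC : ODC.{v} C) {N₁ N₂ : H →L[ℂ] H} (h₁ : IsStarNormal N₁)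
    (h₂ : IsStarNormal N₂) {M : ℝ} (hM0 : 0 ≤ M) (hx : Ser (rp N₂ - rp N₁) M)
    (hy : Ser (ip N₂ - ip N₁) M) {ι : Type} (bas : HilbertBasis ι ℂ H) :
    ∃ (R : ℝ) (b₁ b₂ : (ℝ →ᵇ ℂ) →L[ℂ] (ℝ →ᵇ ℂ) →L[ℂ] ℂ), 0 < R ∧ ‖b₁‖ ≤ 4 * C * M ∧
      ‖b₂‖ ≤ 4 * C * M ∧ Loc b₁ R ∧ Loc b₂ R ∧
      ∀ k l : ℕ, HasTr (rp N₂ ^ k * ip N₂ ^ l - rp N₁ ^ k * ip N₁ ^ l)
        (k * b₁ (cl R ^ (k - 1)) (cl R ^ l) + l * b₂ (cl R ^ k) (cl R ^ (l - 1))) := by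
  set R : ℝ := ‖N₁‖ + ‖N₂‖ + M + 1 with hR
  have n1 := norm_nonneg N₁
  have n2 := norm_nonneg N₂
  have hR0 : 0 < R := by rw [hR]; linarith
  have hN1 : ‖N₁‖ ≤ R := by rw [hR]; linarith
  have hN2 : ‖N₂‖ ≤ R := by rw [hR]; linarith
  have hX1 : ‖rp N₁‖ + M ≤ R := by rw [hR]; linarith [norm_rp N₁]
  have hY2 : ‖ip N₂‖ + M ≤ R := by rw [hR]; linarith [norm_ip N₂]
  obtain ⟨τX, hτX⟩ := ser_nuc hx
  have hy' : Ser (ip N₁ - ip N₂) M := by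
    have := ser_neg hy
    rwa [neg_sub] at this
  obtain ⟨τY, hτY⟩ := ser_nuc hy'
  set ψ₁ := psi N₁ h₁ Complex.im Complex.continuous_im with hψ₁
  set ψ₂ := psi N₂ h₂ Complex.re Complex.continuous_re with hψ₂
  have cX : ∀ w, rp N₁ * ψ₁ w = ψ₁ w * rp N₁ := by
    intro w
    rw [rp_cfc h₁]
    exact psi_comm _ _ _ _ _ _
  have cX' : ∀ w, rp N₁ * star (ψ₁ w) = star (ψ₁ w) * rp N₁ := by
    intro w
    rw [rp_cfc h₁]
    exact psi_comm' _ _ _ _ _ _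
  have cY : ∀ w, ip N₂ * ψ₂ w = ψ₂ w * ip N₂ := by
    intro w
    rw [ip_cfc h₂]
    exact psi_comm _ _ _ _ _ _
  have cY' : ∀ w, ip N₂ * star (ψ₂ w) = star (ψ₂ w) * ip N₂ := by
    intro w
    rw [ip_cfc h₂]
    exact psi_comm' _ _ _ _ _ _
  obtain ⟨b₁, b1, b2, b3, b4⟩ := bilin bas hC0 hC (rp_sa N₁) ψ₁ (norm_psi _ _ _ _) cX cX' hM0 hx
    hτX hX1
  obtain ⟨b', d1, d2, d3, d4⟩ := bilin bas hC0 hC (ip_sa N₂) ψ₂ (norm_psi _ _ _ _) cY cY' hM0 hy'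
    hτY hY2
  have him : ∀ z : ℂ, |z.im| ≤ ‖z‖ := Complex.abs_im_le_norm
  have hre : ∀ z : ℂ, |z.re| ≤ ‖z‖ := Complex.abs_re_le_norm
  have e1 : ∀ (k : ℕ) (w : ℝ →ᵇ ℂ), (k : ℂ) * b₁ (cl R ^ (k - 1)) w =
      Tk τX (rp N₁) (rp N₂) (ψ₁ w) k := by
    intro k w
    rcases k with _ | k
    · simp [Tk]
    · have h3 := b4 k (cl R ^ k) (fun x hx => clpow_apply hx k) w
      rw [Nat.add_sub_cancel]
      push_cast
      exact h3
  have e2 : ∀ (l : ℕ) (w : ℝ →ᵇ ℂ), (l : ℂ) * b' (cl R ^ (l - 1)) w =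
      Tk τY (ip N₂) (ip N₁) (ψ₂ w) l := by
    intro k w
    rcases k with _ | k
    · simp [Tk]
    · have h3 := d4 k (cl R ^ k) (fun x hx => clpow_apply hx k) w
      rw [Nat.add_sub_cancel]
      push_cast
      exact h3
  refine ⟨R, b₁, -b'.flip, hR0, b1, ?_, ⟨b2, fun g v v' h => ?_⟩, ⟨fun g g' h => ?_,
    fun g v v' h => ?_⟩, fun k l => ?_⟩
  · refine (norm_neg (b'.flip)).le.trans ?_
    rw [ContinuousLinearMap.opNorm_flip]
    exact d1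
  · have h3 : ψ₁ (v - v') = 0 := psi_zero h₁ _ hN1 him fun x hx => by
      change v x - v' x = 0
      rw [h x hx, sub_self]
    have h4 := b3 _ h3 g
    rw [map_sub] at h4
    exact sub_eq_zero.1 h4
  · ext v
    have h3 : ψ₂ (g - g') = 0 := psi_zero h₂ _ hN2 hre fun x hx => by
      change g x - g' x = 0
      rw [h x hx, sub_self]
    have h4 := d3 _ h3 v
    rw [map_sub] at h4
    have h5 := sub_eq_zero.1 h4
    simp only [_root_.neg_apply, ContinuousLinearMap.flip_apply]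
    rw [h5]
  · simp only [_root_.neg_apply, ContinuousLinearMap.flip_apply]
    rw [d2 v v' h]
  · intro ι' _ e
    obtain ⟨N, τk, h3, h4⟩ := pow_ex hτX k
    obtain ⟨N', τl, h5, h6⟩ := pow_ex hτY l
    have h7 := h3.tr ι' e 1 (ip N₁ ^ l)
    have h8 := h5.tr ι' e (rp N₂ ^ k) 1
    rw [mul_one, h4] at h7
    rw [one_mul, h6] at h8
    have p1 : ψ₁ (cl R ^ l) = ip N₁ ^ l := by
      rw [hψ₁, psi_pow h₁ _ hN1 him, ← ip_cfc h₁]
    have p2 : ψ₂ (cl R ^ k) = rp N₂ ^ k := by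
      rw [hψ₂, psi_pow h₂ _ hN2 hre, ← rp_cfc h₂]
    rw [← p1, ← e1] at h7
    rw [← p2, ← e2] at h8
    have h9 := h7.sub h8
    have h10 : (k : ℂ) * b₁ (cl R ^ (k - 1)) (cl R ^ l) -
        (l : ℂ) * b' (cl R ^ (l - 1)) (cl R ^ k) =
        k * b₁ (cl R ^ (k - 1)) (cl R ^ l) + l * (-b'.flip) (cl R ^ k) (cl R ^ (l - 1)) := by
      simp only [_root_.neg_apply, ContinuousLinearMap.flip_apply]
      ring
    rw [h10] at h9
    refine h9.congr_fun ?_ |> id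
    intro i
    rw [p1, p2, ← inner_sub_right]
    congr 1
    have h11 : rp N₂ ^ k * ip N₂ ^ l - rp N₁ ^ k * ip N₁ ^ l =
        1 * ((rp N₂ ^ k - rp N₁ ^ k) * ip N₁ ^ l) -
          rp N₂ ^ k * ((ip N₁ ^ l - ip N₂ ^ l) * 1) := by noncomm_ring
    rw [h11]
    rfl

/-- THEOREM (bimeasures) -/
theorem bimeasures : ∃ C : ℝ, 0 ≤ C ∧
    ∀ (H : Type v) [NormedAddCommGroup H] [InnerProductSpace ℂ H] [CompleteSpace H]
      (N₁ N₂ : H →L[ℂ] H), IsStarNormal N₁ → IsStarNormal N₂ →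
      ∀ (x y : ℕ → H) (M : ℝ), (Summable fun k => ‖x k‖ * ‖y k‖) → ∑' k, ‖x k‖ * ‖y k‖ ≤ M →
      (∀ z, HasSum (fun k => inner ℂ (y k) z • x k) ((N₂ - N₁) z)) →
      ∃ b₁ b₂ : (ℝ →ᵇ ℂ) →L[ℂ] (ℝ →ᵇ ℂ) →L[ℂ] ℂ, ‖b₁‖ ≤ C * M ∧ ‖b₂‖ ≤ C * M ∧
        ∀ f : ℂ → ℂ, ContDiff ℝ (⊤ : ℕ∞) f → HasCompactSupport f → ∃ c₁ c₂ : ℂ,
          (∀ g v : ℕ → (ℝ →ᵇ ℂ), (Summable fun k => ‖g k‖ * ‖v k‖) →
            (∀ z : ℂ, HasSum (fun k => g k z.re * v k z.im) (fderiv ℝ f z 1)) →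
              ∑' k, b₁ (g k) (v k) = c₁) ∧
          (∀ g v : ℕ → (ℝ →ᵇ ℂ), (Summable fun k => ‖g k‖ * ‖v k‖) →
            (∀ z : ℂ, HasSum (fun k => g k z.re * v k z.im) (fderiv ℝ f z Complex.I)) →
              ∑' k, b₂ (g k) (v k) = c₂) ∧
          HasTr (cfc f N₂ - cfc f N₁) (c₁ + c₂) := by
  obtain ⟨C, hC0, hC⟩ := stmt_OD'.{v}
  refine ⟨4 * C, by positivity, ?_⟩
  intro H _ _ _ N₁ N₂ h₁ h₂ x y M hs hM hD
  have hM0 : 0 ≤ M := le_trans (tsum_nonneg fun k => by positivity) hM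
  have hnuc := (nuc_series hs hD).mono hM
  by_cases hbas : ∃ (ι : Type) (_ : Countable ι) (_ : HilbertBasis ι ℂ H), True
  swap
  · have hz : ‖(0 : (ℝ →ᵇ ℂ) →L[ℂ] (ℝ →ᵇ ℂ) →L[ℂ] ℂ)‖ ≤ 4 * C * M :=
      (norm_zero (E := (ℝ →ᵇ ℂ) →L[ℂ] (ℝ →ᵇ ℂ) →L[ℂ] ℂ)).le.trans (by positivity)
    refine ⟨0, 0, hz, hz, fun f _ _ => ⟨0, 0, fun g v _ _ => ?_, fun g v _ _ => ?_, ?_⟩⟩
    · simp
    · simp
    · intro ι hι e
      exact (hbas ⟨ι, hι, e, trivial⟩).elim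
  obtain ⟨ι, hι, bas, -⟩ := hbas
  obtain ⟨s1, s2⟩ := ser_parts hs hM hD (u := 1) (by simp)
  rw [one_smul] at s1 s2
  have e1 : rp N₂ - rp N₁ = rp (N₂ - N₁) := by
    rw [rp, rp, rp, map_sub]; rfl
  have e2 : ip N₂ - ip N₁ = ip (N₂ - N₁) := by
    rw [ip, ip, ip, map_sub]; rfl
  rw [← e1] at s1
  rw [← e2] at s2
  obtain ⟨R, b₁, b₂, hR, hb₁, hb₂, L₁, L₂, htr⟩ := forms hC0 hC h₁ h₂ hM0 s1 s2 bas
  refine ⟨b₁, b₂, hb₁, hb₂, ?_⟩
  intro f hf hfc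
  set R' : ℝ := ‖N₁‖ + ‖N₂‖ + 1 with hR'
  have n1 : ‖N₁‖ ≤ R' := by rw [hR']; linarith [norm_nonneg N₂]
  have n2 : ‖N₂‖ ≤ R' := by rw [hR']; linarith [norm_nonneg N₁]
  have hR1 : 1 ≤ R' := by rw [hR']; linarith [norm_nonneg N₁, norm_nonneg N₂]
  obtain ⟨τA, hA⟩ := ser_nuc s1
  obtain ⟨τB, hB⟩ := ser_nuc s2
  set Lf : ℝ → ℝ → ℂ := fun a b => (Complex.I * a) * b₁ (E a) (E b) +
    (Complex.I * b) * b₂ (E a) (E b) with hLf
  have hL : ∀ a b : ℝ, HasSum (fun p : ℕ × ℕ => cc a b p *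
      (p.1 * b₁ (cl R ^ (p.1 - 1)) (cl R ^ p.2) + p.2 * b₂ (cl R ^ p.1) (cl R ^ (p.2 - 1))))
      (Lf a b) := by
    intro a b
    obtain ⟨G, g1, g2, g3, g4, g5⟩ := series hR.le a
    obtain ⟨G', g1', g2', g3', g4', g5'⟩ := series hR.le b
    have k1 := bil_hasSum b₁ g5 g3' g4 g2'
    have k2 := bil_hasSum b₂ g3 g5' g2 g4'
    have k3 : b₁ ((Complex.I * a) • G) G' + b₂ G ((Complex.I * b) • G') = Lf a b := by
      rw [hLf, map_smul, map_smul, _root_.smul_apply, L₁.1 G (E a) g1, L₁.2 _ G' (E b) g1',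
        L₂.1 G (E a) g1, L₂.2 _ G' (E b) g1', smul_eq_mul, smul_eq_mul]
    rw [← k3]
    refine (k1.add k2).congr_fun ?_ |> id
    intro p
    simp only [map_smul, _root_.smul_apply, smul_eq_mul]
    unfold cc
    ring
  have hmain := smoothL (rp_sa N₁) (ip_sa N₁) (rp_sa N₂) (ip_sa N₂)
    (rp_comm h₁) (rp_comm h₂) (fun ι' e' he' => ⟨M, R',
      rp_sa N₁, ip_sa N₁, rp_sa N₂, ip_sa N₂, rp_comm h₁,
      rp_comm h₂, hM0, hR1, (norm_rp _).trans n1, (norm_ip _).trans n1,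
      (norm_rp _).trans n2, (norm_ip _).trans n2, hA.tb ι' e' he', hB.tb ι' e' he'⟩)
    _ htr Lf hL f hf hfc
  have e0 := NN_rp N₁
  have e1 := NN_rp N₂
  unfold NN at e0 e1
  rw [e0, e1] at hmain
  -- the value
  set fs : 𝓢(ℂ, ℂ) := hfc.toSchwartzMap hf with hfs
  have hfs' : (fs : ℂ → ℂ) = f := rfl
  have hint : ∀ m : ℂ, Integrable fun ξ : ℂ =>
      (𝓕 fs) ξ * (2 * Real.pi * Complex.I * (inner ℝ ξ m : ℝ)) := by
    intro m
    have h1 : Integrable (fun ξ : ℂ => (𝓕 (∂_{m} fs : 𝓢(ℂ, ℂ))) ξ) :=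
      (𝓕 (∂_{m} fs : 𝓢(ℂ, ℂ))).integrable
    refine h1.congr (Eventually.of_forall fun ξ => ?_)
    simp only
    rw [SchwartzMap.fourier_lineDerivOp_eq]
    have h2 : (fun x : ℂ => (inner ℝ x m : ℝ)).HasTemperateGrowth :=
      ((innerSL ℝ).flip m).hasTemperateGrowth
    rw [_root_.smul_apply, SchwartzMap.smulLeftCLM_apply_apply h2]
    simp only [smul_eq_mul, Complex.real_smul]
    ring
  have ha : Continuous fun ξ : ℂ => 2 * Real.pi * ξ.re := by fun_prop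
  have hb : Continuous fun ξ : ℂ => 2 * Real.pi * ξ.im := by fun_prop
  obtain ⟨t1, i1⟩ := tendsto_int b₁ hR L₁ (F := fun z => fderiv ℝ f z 1) (hint 1) ha hb
    (fun z => inv2 fs 1 z)
  obtain ⟨t2, i2⟩ := tendsto_int b₂ hR L₂ (F := fun z => fderiv ℝ f z Complex.I)
    (hint Complex.I) ha hb (fun z => inv2 fs Complex.I z)
  refine ⟨_, _, fun g v hgv hgv' => tendsto_nhds_unique (tendsto_tsum b₁ hR L₁ hgv hgv') t1,
    fun g v hgv hgv' => tendsto_nhds_unique (tendsto_tsum b₂ hR L₂ hgv hgv') t2, ?_⟩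
  rw [← integral_add i1 i2]
  have hval : ∀ ξ : ℂ, (𝓕 fs) ξ * Lf (2 * Real.pi * ξ.re) (2 * Real.pi * ξ.im) =
      (𝓕 fs) ξ * (2 * Real.pi * Complex.I * (inner ℝ ξ 1 : ℝ)) *
        b₁ (E (2 * Real.pi * ξ.re)) (E (2 * Real.pi * ξ.im)) +
      (𝓕 fs) ξ * (2 * Real.pi * Complex.I * (inner ℝ ξ Complex.I : ℝ)) *
        b₂ (E (2 * Real.pi * ξ.re)) (E (2 * Real.pi * ξ.im)) := by
    intro ξ
    have q1 : (inner ℝ ξ 1 : ℝ) = ξ.re := by rw [Complex.inner]; simp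
    have q2 : (inner ℝ ξ Complex.I : ℝ) = ξ.im := by rw [Complex.inner]; simp
    rw [q1, q2, hLf]
    push_cast
    ring
  rw [integral_congr_ae (Eventually.of_forall hval)] at hmain
  exact hmain

end Pool.LG.BM
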