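import Pool.Agent.Work.LipGraph.Bimeas.F

/-!
# Bimeasures, part Z: functions vanishing at infinity
-/

open MeasureTheory Filter
open scoped BoundedContinuousFunction Topology ZeroAtInfty

namespace Pool.LG.BM

/-- the inclusion -/
noncomputable def jj : C₀(ℝ, ℂ) →L[ℂ] (ℝ →ᵇ ℂ) :=
  LinearMap.mkContinuous
    { toFun := fun g => g.toBCF
      map_add' := fun g h => by ext x; rfl
      map_smul' := fun c g => by ext x; rfl } 1 (by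
    intro g
    rw [one_mul]
    exact le_of_eq (ZeroAtInftyContinuousMap.norm_toBCF_eq_norm))

theorem jj_apply (g : C₀(ℝ, ℂ)) (x : ℝ) : jj g x = g x := rfl

theorem norm_jj (g : C₀(ℝ, ℂ)) : ‖jj g‖ = ‖g‖ := ZeroAtInftyContinuousMap.norm_toBCF_eq_norm

/-- the restricted form -/
noncomputable def restr (b : (ℝ →ᵇ ℂ) →L[ℂ] (ℝ →ᵇ ℂ) →L[ℂ] ℂ) :
    C₀(ℝ, ℂ) →ₗ[ℂ] C₀(ℝ, ℂ) →ₗ[ℂ] ℂ :=
  LinearMap.mk₂ ℂ (fun g v => b (jj g) (jj v))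
    (fun g g' v => by rw [map_add, map_add, _root_.add_apply])
    (fun c g v => by rw [map_smul, map_smul, _root_.smul_apply])
    (fun g v v' => by rw [map_add, map_add])
    (fun c g v => by rw [map_smul, map_smul])

theorem restr_apply (b : (ℝ →ᵇ ℂ) →L[ℂ] (ℝ →ᵇ ℂ) →L[ℂ] ℂ) (g v : C₀(ℝ, ℂ)) :
    restr b g v = b (jj g) (jj v) := rfl

theorem norm_restr (b : (ℝ →ᵇ ℂ) →L[ℂ] (ℝ →ᵇ ℂ) →L[ℂ] ℂ) {K : ℝ} (hb : ‖b‖ ≤ K)
    (g v : C₀(ℝ, ℂ)) : ‖restr b g v‖ ≤ K * ‖g‖ * ‖v‖ := by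
  rw [restr_apply, ← norm_jj g, ← norm_jj v]
  refine (b.le_opNorm₂ _ _).trans ?_
  gcongr

/-- a compactly supported continuous function as an element of `C₀` -/
noncomputable def toC0 (g : ℝ →ᵇ ℂ) (hg : HasCompactSupport g) : C₀(ℝ, ℂ) :=
  ⟨⟨g, g.continuous⟩, hg.is_zero_at_infty⟩

theorem toC0_apply (g : ℝ →ᵇ ℂ) (hg : HasCompactSupport g) (x : ℝ) : toC0 g hg x = g x := rfl

theorem norm_toC0 (g : ℝ →ᵇ ℂ) (hg : HasCompactSupport g) : ‖toC0 g hg‖ = ‖g‖ := by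
  rw [← norm_jj]
  congr 1

/-- expansions of smooth functions in `C₀` -/
theorem expand₀ {F : ℂ → ℂ} (hF : ContDiff ℝ (⊤ : ℕ∞) F) (hFc : HasCompactSupport F) :
    ∃ g v : ℕ → C₀(ℝ, ℂ), (Summable fun k => ‖g k‖ * ‖v k‖) ∧
      ∀ z : ℂ, HasSum (fun k => g k z.re * v k z.im) (F z) := by
  obtain ⟨g, v, h1, h2, h3⟩ := expand hF hFc
  refine ⟨fun k => toC0 (g k) (h1 k).1, fun k => toC0 (v k) (h1 k).2, ?_, h3⟩
  simp only [norm_toC0]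
  exact h2

end Pool.LG.BM
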